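import Pool.Agent.Q298.Gold.Win

set_option autoImplicit false
set_option linter.unusedSectionVars false

open MeasureTheory ProbabilityTheory Set Filter
open scoped ENNReal NNReal Topology

namespace Pool.Agent.Q298.Gold

section key

variable {A S : Type*} [MeasurableSpace A] [StandardBorelSpace A] [MeasurableSpace S]
  [MeasurableSingletonClass S] (ν : Measure A) [IsProbabilityMeasure ν]

/-- the windows of the sites of `[-l, l]` are inside `[-n, n]` -/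
def Good {A S : Type*} (φ : (ℤ → A) → (ℤ → S)) (Ω₀ : Set (ℤ → A)) (n l : ℕ) (y : ℤ → A) : Prop :=
  ∀ i : ℤ, |i| ≤ l → Determined φ Ω₀ (n - i.natAbs) (sh i y)

lemma bad_le {φ : (ℤ → A) → (ℤ → S)} {Ω₀ : Set (ℤ → A)} (T : ℕ → ℝ≥0∞)
    (hT : ∀ r, (Measure.infinitePi fun _ : ℤ => ν) {y | y ∈ Ω₀ ∧ ¬ Determined φ Ω₀ r y} ≤ T r)
    (n l : ℕ) (hl : l ≤ n) :
    (Measure.infinitePi fun _ : ℤ => ν) {y | (∀ k : ℤ, sh k y ∈ Ω₀ ∧ φ (sh k y) = sh k (φ y)) ∧
      ¬ Good φ Ω₀ n l y} ≤ (2 * l + 1 : ℕ) * T (n - l) := by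
  have hsub : {y | (∀ k : ℤ, sh k y ∈ Ω₀ ∧ φ (sh k y) = sh k (φ y)) ∧ ¬ Good φ Ω₀ n l y} ⊆
      ⋃ i ∈ Finset.Icc (-(l : ℤ)) l, sh i ⁻¹' {y | y ∈ Ω₀ ∧ ¬ Determined φ Ω₀ (n - l) y} := by
    rintro y ⟨hy, hbad⟩
    unfold Good at hbad
    push Not at hbad
    obtain ⟨i, hi, hdi⟩ := hbad
    refine mem_biUnion (show i ∈ Finset.Icc (-(l : ℤ)) l from ?_) ⟨(hy i).1, fun h => hdi ?_⟩
    · rw [Finset.mem_Icc, ← abs_le]; exact hi
    · refine h.mono ?_
      have : ((i.natAbs : ℕ) : ℤ) ≤ l := by rw [Int.natCast_natAbs]; exact hi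
      have : i.natAbs ≤ l := by exact_mod_cast this
      omega
  refine (measure_mono hsub).trans ((measure_biUnion_finset_le _ _).trans ?_)
  calc ∑ i ∈ Finset.Icc (-(l : ℤ)) l, (Measure.infinitePi fun _ : ℤ => ν)
        (sh i ⁻¹' {y | y ∈ Ω₀ ∧ ¬ Determined φ Ω₀ (n - l) y})
      ≤ ∑ i ∈ Finset.Icc (-(l : ℤ)) l, T (n - l) :=
        Finset.sum_le_sum (fun i _ => (sh_preimage_le ν i _).trans (hT _))
    _ = _ := by
        rw [Finset.sum_const, nsmul_eq_mul, Int.card_Icc]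
        congr 2
        omega

lemma pointwise_bound {φ : (ℤ → A) → (ℤ → S)} {Ω₀ : Set (ℤ → A)} (hm : Measurable φ)
    (hE : ∀ᵐ y ∂(Measure.infinitePi fun _ : ℤ => ν), ∀ k : ℤ, sh k y ∈ Ω₀ ∧
      φ (sh k y) = sh k (φ y)) (Λ K : ℝ≥0∞) (hΛ : 1 ≤ Λ) (hΛt : Λ ≠ ∞) (hK : 1 ≤ K)
    (hcyl : ∀ (l : ℕ) (z : ℤ → S), ((Measure.infinitePi fun _ : ℤ => ν).map φ)
      {x | ∀ i ∈ Finset.Icc (-(l : ℤ)) l, x i = z i} * Λ ^ (2 * l + 1) ≤ K)
    (θ : ℝ) (hθ : 0 ≤ θ) (n : ℕ) (B : ℕ → Set (ℤ → A))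
    (hB : ∀ l, {y | (∀ k : ℤ, sh k y ∈ Ω₀ ∧ φ (sh k y) = sh k (φ y)) ∧ ¬ Good φ Ω₀ n l y} ⊆ B l)
    (y : ℤ → A) (hy : ∀ k : ℤ, sh k y ∈ Ω₀ ∧ φ (sh k y) = sh k (φ y)) :
    (Wn ν n y * Λ ^ (2 * n + 1)) ^ θ ≤ K ^ θ +
      ∑ l ∈ Finset.range (n + 1), (B l).indicator (fun _ => (K * Λ ^ (2 * (n - l) + 2)) ^ θ) y := by
  classical
  have hgood : ∀ l ≤ n, Good φ Ω₀ n l y → Wn ν n y * Λ ^ (2 * n + 1) ≤ K * Λ ^ (2 * (n - l)) := by
    intro l hl hg
    have h1 := cyl_compare ν hm hE n l hl y hy hg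
    calc Wn ν n y * Λ ^ (2 * n + 1) = (Wn ν n y * Λ ^ (2 * l + 1)) * Λ ^ (2 * (n - l)) := by
          rw [mul_assoc, ← pow_add]
          congr 2
          omega
      _ ≤ K * Λ ^ (2 * (n - l)) := by
          gcongr
          refine le_trans ?_ (hcyl l (φ y))
          gcongr
  by_cases hn : Good φ Ω₀ n n y
  · have h1 := hgood n le_rfl hn
    rw [Nat.sub_self, mul_zero, pow_zero, mul_one] at h1
    exact (ENNReal.rpow_le_rpow h1 hθ).trans le_self_add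
  · -- first bad level
    have hex : ∃ l, ¬ Good φ Ω₀ n l y := ⟨n, hn⟩
    set l := Nat.find hex with hl
    have hbad : ¬ Good φ Ω₀ n l y := Nat.find_spec hex
    have hln : l ≤ n := Nat.find_min' hex hn
    have hval : Wn ν n y * Λ ^ (2 * n + 1) ≤ K * Λ ^ (2 * (n - l) + 2) := by
      rcases Nat.eq_zero_or_pos l with h0 | h0
      · rw [h0, Nat.sub_zero]
        have hW : Wn ν n y ≤ 1 := by
          rw [← cyl_Wn]
          exact prob_le_one
        calc Wn ν n y * Λ ^ (2 * n + 1) ≤ 1 * Λ ^ (2 * n + 2) :=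
              mul_le_mul' hW (pow_le_pow_right₀ hΛ (by omega))
          _ ≤ K * Λ ^ (2 * n + 2) := mul_le_mul' hK le_rfl
      · have hg : Good φ Ω₀ n (l - 1) y := by
          by_contra hcon
          exact Nat.find_min hex (by omega : l - 1 < l) hcon
        refine (hgood (l - 1) (by omega) hg).trans (le_of_eq ?_)
        congr 2
        omega
    have hmem : y ∈ B l := hB l ⟨hy, hbad⟩
    refine le_trans ?_ le_add_self
    refine le_trans ?_ (Finset.single_le_sum (f := fun l => (B l).indicator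
      (fun _ => (K * Λ ^ (2 * (n - l) + 2)) ^ θ) y) (fun _ _ => bot_le)
      (Finset.mem_range.2 (Nat.lt_succ_of_le hln)))
    show _ ≤ (B l).indicator (fun _ => (K * Λ ^ (2 * (n - l) + 2)) ^ θ) y
    rw [indicator_of_mem hmem]
    exact ENNReal.rpow_le_rpow hval hθ

/-- elementary: a number whose powers grow polynomially is at most one -/
lemma le_one_of_growth (G K' C' : ℝ≥0∞) (hG : G ≠ ∞) (hK : K' ≠ ∞) (hC : C' ≠ ∞)
    (h : ∀ n : ℕ, G ^ (2 * n + 1) ≤ K' * (1 + (n + 1 : ℕ) * ((2 * n + 1 : ℕ) * C'))) : G ≤ 1 := by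
  by_contra hcon
  rw [not_le] at hcon
  set g := G.toReal with hg
  have hg1 : 1 < g := by
    rw [hg, ← ENNReal.toReal_one]
    exact (ENNReal.toReal_lt_toReal ENNReal.one_ne_top hG).2 hcon
  set k := K'.toReal
  set c := C'.toReal
  have hk0 : 0 ≤ k := ENNReal.toReal_nonneg
  have hc0 : 0 ≤ c := ENNReal.toReal_nonneg
  have hreal : ∀ n : ℕ, g ^ (2 * n + 1) ≤ (k * (1 + c) + 1) * ((2 * n + 1 : ℕ) : ℝ) ^ 2 := by
    intro n
    have h1 := h n
    have hfin : K' * (1 + (n + 1 : ℕ) * ((2 * n + 1 : ℕ) * C')) ≠ ∞ :=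
      ENNReal.mul_ne_top hK (ENNReal.add_ne_top.2 ⟨ENNReal.one_ne_top,
        ENNReal.mul_ne_top (ENNReal.natCast_ne_top _)
          (ENNReal.mul_ne_top (ENNReal.natCast_ne_top _) hC)⟩)
    have h2 := ENNReal.toReal_mono hfin h1
    rw [ENNReal.toReal_pow, ENNReal.toReal_mul, ENNReal.toReal_add ENNReal.one_ne_top
      (ENNReal.mul_ne_top (ENNReal.natCast_ne_top _)
          (ENNReal.mul_ne_top (ENNReal.natCast_ne_top _) hC)), ENNReal.toReal_mul,
      ENNReal.toReal_mul, ENNReal.toReal_one, ENNReal.toReal_natCast,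
      ENNReal.toReal_natCast] at h2
    refine h2.trans ?_
    push_cast
    have hn : (0 : ℝ) ≤ n := Nat.cast_nonneg n
    have e1 : (1 : ℝ) ≤ (2 * n + 1) ^ 2 := by nlinarith
    have e2 : ((n : ℝ) + 1) * (2 * n + 1) ≤ (2 * n + 1) ^ 2 := by nlinarith
    calc k * (1 + ((n : ℝ) + 1) * ((2 * n + 1) * c)) = k * (1 + ((n + 1) * (2 * n + 1)) * c) := by ring
      _ ≤ k * ((2 * n + 1) ^ 2 + (2 * n + 1) ^ 2 * c) := by gcongr
      _ = k * (1 + c) * (2 * n + 1) ^ 2 := by ring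
      _ ≤ _ := by nlinarith
  have hlim := tendsto_pow_const_div_const_pow_of_one_lt 2 hg1
  have hQ : 0 < k * (1 + c) + 1 := by positivity
  have hev := hlim.eventually (gt_mem_nhds (show (0 : ℝ) < 1 / (k * (1 + c) + 1) by positivity))
  obtain ⟨N, hN⟩ := eventually_atTop.1 hev
  have h3 := hN (2 * N + 1) (by omega)
  have hgp : 0 < g ^ (2 * N + 1) := by positivity
  rw [div_lt_div_iff₀ hgp hQ, one_mul] at h3
  have h4 := hreal N
  linarith

/-- the main inequality -/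
theorem exists_theta {φ : (ℤ → A) → (ℤ → S)} {μ : Measure (ℤ → S)}
    (hf : IsExpFinitaryFactor ν μ φ) (L : ℝ) (hL : 1 < L) (K : ℝ≥0∞) (hK : 1 ≤ K) (hKt : K ≠ ∞)
    (hcyl : ∀ (l : ℕ) (z : ℤ → S), μ {x | ∀ i ∈ Finset.Icc (-(l : ℤ)) l, x i = z i} *
      (ENNReal.ofReal L) ^ (2 * l + 1) ≤ K) :
    ∃ θ : ℝ, 0 < θ ∧ (∫⁻ a, (ν {a}) ^ θ ∂ν) * (ENNReal.ofReal L) ^ θ ≤ 1 := by
  obtain ⟨Ω₀, hΩ₀, C, c, hc, hwin⟩ := hf.window
  set P := Measure.infinitePi fun _ : ℤ => ν with hP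
  have hlogL : 0 < Real.log L := Real.log_pos hL
  have hL0 : 0 < L := by linarith
  set θ : ℝ := c / (2 * Real.log L) with hθdef
  have hθ : 0 < θ := by positivity
  refine ⟨θ, hθ, ?_⟩
  set Λ := ENNReal.ofReal L with hΛ
  have hΛ1 : 1 ≤ Λ := by
    rw [hΛ, ← ENNReal.ofReal_one]
    exact ENNReal.ofReal_le_ofReal hL.le
  have hΛt : Λ ≠ ∞ := ENNReal.ofReal_ne_top
  have hE : ∀ᵐ y ∂P, ∀ k : ℤ, sh k y ∈ Ω₀ ∧ φ (sh k y) = sh k (φ y) := by
    rw [ae_all_iff]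
    intro k
    filter_upwards [ae_sh ν k hΩ₀, ae_equivariant ν hf.equivariant k] with y h1 h2
    exact ⟨h1, h2⟩
  set F := ∫⁻ a, (ν {a}) ^ θ ∂ν with hF
  have hF1 : F ≤ 1 := by
    calc F ≤ ∫⁻ _, 1 ∂ν := by
          refine lintegral_mono (fun a => ?_)
          exact ENNReal.rpow_le_one prob_le_one hθ.le
      _ = 1 := by simp
  have hpowt : Λ ^ θ ≠ ∞ := ENNReal.rpow_ne_top_of_nonneg hθ.le hΛt
  refine le_one_of_growth (F * Λ ^ θ) (K ^ θ) (ENNReal.ofReal (|C| * Real.exp c))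
    (ENNReal.mul_ne_top (ne_top_of_le_ne_top ENNReal.one_ne_top hF1) hpowt)
    (ENNReal.rpow_ne_top_of_nonneg hθ.le hKt) ENNReal.ofReal_ne_top (fun n => ?_)
  set bad : ℕ → Set (ℤ → A) := fun l => {y | (∀ k : ℤ, sh k y ∈ Ω₀ ∧ φ (sh k y) = sh k (φ y)) ∧
      ¬ Good φ Ω₀ n l y} with hbad
  set B : ℕ → Set (ℤ → A) := fun l => toMeasurable P (bad l) with hB
  have hcyl' : ∀ (l : ℕ) (z : ℤ → S), (P.map φ) {x | ∀ i ∈ Finset.Icc (-(l : ℤ)) l, x i = z i} *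
      Λ ^ (2 * l + 1) ≤ K := by
    intro l z
    rw [hf.law]
    exact hcyl l z
  have hpt : ∀ᵐ y ∂P, (Wn ν n y * Λ ^ (2 * n + 1)) ^ θ ≤ K ^ θ +
      ∑ l ∈ Finset.range (n + 1), (B l).indicator (fun _ => (K * Λ ^ (2 * (n - l) + 2)) ^ θ) y := by
    filter_upwards [hE] with y hy
    exact pointwise_bound ν hf.meas hE Λ K hΛ1 hΛt hK hcyl' θ hθ.le n B
      (fun l => subset_toMeasurable P (bad l)) y hy
  have hlhs : ∫⁻ y, (Wn ν n y * Λ ^ (2 * n + 1)) ^ θ ∂P = (F * Λ ^ θ) ^ (2 * n + 1) := by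
    have h1 : ∀ y, (Wn ν n y * Λ ^ (2 * n + 1)) ^ θ = (Wn ν n y) ^ θ * (Λ ^ θ) ^ (2 * n + 1) := by
      intro y
      rw [ENNReal.mul_rpow_of_nonneg _ _ hθ.le]
      congr 1
      rw [← ENNReal.rpow_natCast, ← ENNReal.rpow_natCast, ← ENNReal.rpow_mul, ← ENNReal.rpow_mul,
        mul_comm]
    simp_rw [h1]
    rw [lintegral_mul_const' _ _ (ENNReal.pow_ne_top hpowt), lint_Wn ν n θ hθ.le, mul_pow]
  rw [← hlhs]
  refine (lintegral_mono_ae hpt).trans ?_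
  rw [lintegral_add_left measurable_const, lintegral_const, measure_univ, mul_one,
    lintegral_finsetSum]
  · rw [mul_add, mul_one]
    gcongr
    have hterm : ∀ l ∈ Finset.range (n + 1), ∫⁻ y, (B l).indicator
        (fun _ => (K * Λ ^ (2 * (n - l) + 2)) ^ θ) y ∂P ≤
        K ^ θ * ((2 * n + 1 : ℕ) * ENNReal.ofReal (|C| * Real.exp c)) := by
      intro l hl
      have hln : l ≤ n := Nat.lt_succ_iff.1 (Finset.mem_range.1 hl)
      rw [lintegral_indicator_const (measurableSet_toMeasurable P _), measure_toMeasurable]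
      have hb := bad_le ν (φ := φ) (Ω₀ := Ω₀)
        (fun r => ENNReal.ofReal (C * Real.exp (-c * r))) hwin n l hln
      rw [ENNReal.mul_rpow_of_nonneg _ _ hθ.le]
      have hpow : (Λ ^ (2 * (n - l) + 2)) ^ θ = ENNReal.ofReal (Real.exp (c * ((n - l : ℕ) + 1))) := by
        rw [hΛ, ← ENNReal.ofReal_pow hL0.le, ENNReal.ofReal_rpow_of_pos (by positivity)]
        congr 1
        rw [Real.rpow_def_of_pos (by positivity), Real.log_pow, hθdef]
        congr 1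
        push_cast
        field_simp
      rw [hpow]
      calc K ^ θ * ENNReal.ofReal (Real.exp (c * ((n - l : ℕ) + 1))) * P (bad l)
          ≤ K ^ θ * ENNReal.ofReal (Real.exp (c * ((n - l : ℕ) + 1))) *
            ((2 * l + 1 : ℕ) * ENNReal.ofReal (C * Real.exp (-c * (n - l : ℕ)))) := by
              gcongr
        _ ≤ K ^ θ * ENNReal.ofReal (Real.exp (c * ((n - l : ℕ) + 1))) *
            ((2 * n + 1 : ℕ) * ENNReal.ofReal (|C| * Real.exp (-c * (n - l : ℕ)))) := by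
              gcongr
              exact le_abs_self C
        _ = K ^ θ * ((2 * n + 1 : ℕ) * (ENNReal.ofReal (Real.exp (c * ((n - l : ℕ) + 1))) *
            ENNReal.ofReal (|C| * Real.exp (-c * (n - l : ℕ))))) := by ring
        _ = _ := by
              rw [← ENNReal.ofReal_mul (Real.exp_pos _).le]
              congr 3
              rw [mul_left_comm, ← Real.exp_add]
              congr 2
              ring
    calc (∑ l ∈ Finset.range (n + 1), (∫⁻ y, (B l).indicator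
        (fun _ => (K * Λ ^ (2 * (n - l) + 2)) ^ θ) y ∂P))
        ≤ ∑ l ∈ Finset.range (n + 1), K ^ θ * ((2 * n + 1 : ℕ) *
          ENNReal.ofReal (|C| * Real.exp c)) := Finset.sum_le_sum hterm
      _ = _ := by
          rw [Finset.sum_const, Finset.card_range, nsmul_eq_mul]
          ring
  · intro l _
    exact measurable_const.indicator (measurableSet_toMeasurable P _)

end key

end Pool.Agent.Q298.Gold
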