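import Pool.Agent.Q298.Gold.Jensen

set_option autoImplicit false
set_option linter.unusedSectionVars false

open MeasureTheory ProbabilityTheory Set Filter
open scoped ENNReal NNReal Topology

namespace Pool.Agent.Q298.Gold

/-- the golden ratio -/
noncomputable def gr : ℝ := Real.goldenRatio

lemma gr_pos : 0 < gr := Real.goldenRatio_pos
lemma gr_one : 1 < gr := Real.one_lt_goldenRatio
lemma gr_sq : gr ^ 2 = gr + 1 := Real.goldenRatio_sq

lemma gr_inv : gr⁻¹ = gr - 1 := by
  have h := gr_sq
  have h0 := gr_pos.ne'
  field_simp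
  linarith

lemma gr_inv_lt : gr⁻¹ < 1 := inv_lt_one_of_one_lt₀ gr_one

/-- transition probabilities of the golden mean chain -/
noncomputable def gp : Bool → Bool → ℝ≥0∞
  | false, false => ENNReal.ofReal gr⁻¹
  | false, true => ENNReal.ofReal (1 - gr⁻¹)
  | true, false => 1
  | true, true => 0

/-- the law of one bit -/
noncomputable def bit : Measure Bool :=
  ENNReal.ofReal gr⁻¹ • Measure.dirac false + ENNReal.ofReal (1 - gr⁻¹) • Measure.dirac true

lemma bit_false : bit {false} = ENNReal.ofReal gr⁻¹ := by
  simp [bit]

lemma bit_true : bit {true} = ENNReal.ofReal (1 - gr⁻¹) := by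
  simp [bit]

instance : IsProbabilityMeasure bit := by
  refine ⟨?_⟩
  simp only [bit, Measure.add_apply, Measure.smul_apply, measure_univ, smul_eq_mul, mul_one]
  rw [← ENNReal.ofReal_add (inv_nonneg.2 gr_pos.le) (by linarith [gr_inv_lt])]
  norm_num

noncomputable def PB : Measure (ℤ → Bool) := Measure.infinitePi fun _ : ℤ => bit

instance : IsProbabilityMeasure PB := by unfold PB; infer_instance

/-- the run of ones that ends at `n` has odd length -/
def Run (b : ℤ → Bool) (n : ℤ) : Prop :=
  ∃ j : ℕ, Odd j ∧ (∀ i : ℕ, i < j → b (n - i) = true) ∧ b (n - j) = false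

lemma run_iff {b : ℤ → Bool} {n : ℤ} {L : ℕ} (h1 : ∀ i : ℕ, i < L → b (n - i) = true)
    (h2 : b (n - L) = false) : Run b n ↔ Odd L := by
  constructor
  · rintro ⟨j, hj, h3, h4⟩
    have : j = L := by
      rcases lt_trichotomy j L with h | h | h
      · exact absurd (h1 j h) (by simp [h4])
      · exact h
      · exact absurd (h3 L h) (by simp [h2])
    rwa [← this]
  · intro h
    exact ⟨L, h, h1, h2⟩

lemma run_succ {b : ℤ → Bool} {n : ℤ} (hex : ∃ i : ℕ, b (n - i) = false) :
    Run b (n + 1) ↔ (b (n + 1) = true ∧ ¬ Run b n) := by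
  classical
  set L := Nat.find hex with hL
  have h2 : b (n - L) = false := Nat.find_spec hex
  have h1 : ∀ i : ℕ, i < L → b (n - i) = true := by
    intro i hi
    have := Nat.find_min hex hi
    simpa using this
  have hn : Run b n ↔ Odd L := run_iff h1 h2
  cases hb : b (n + 1)
  · have : Run b (n + 1) ↔ Odd 0 := run_iff (L := 0) (fun i hi => absurd hi (Nat.not_lt_zero i))
      (by simpa using hb)
    rw [this]
    simp
  · have : Run b (n + 1) ↔ Odd (L + 1) := by
      refine run_iff (fun i hi => ?_) ?_
      · cases i with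
        | zero => simpa using hb
        | succ i =>
          have := h1 i (by omega)
          rw [← this]
          congr 1
          push_cast
          ring
      · rw [← h2]
        congr 1
        push_cast
        ring
    rw [this, hn, Nat.odd_add_one]
    simp

open Classical in
/-- the coding of the golden mean chain -/
noncomputable def code (b : ℤ → Bool) : ℤ → Bool := fun n => decide (Run b n)

lemma code_true (b : ℤ → Bool) (n : ℤ) : code b n = true ↔ Run b n := by
  simp [code]

lemma code_false (b : ℤ → Bool) (n : ℤ) : code b n = false ↔ ¬ Run b n := by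
  simp [code]

lemma code_sh (k : ℤ) (b : ℤ → Bool) : code (sh k b) = sh k (code b) := by
  classical
  funext n
  have : Run (sh k b) n ↔ Run b (n + k) := by
    unfold Run sh
    refine exists_congr (fun j => and_congr_right (fun _ => ?_))
    have e : ∀ i : ℕ, n - (i : ℤ) + k = n + k - i := fun i => by ring
    simp only [e]
  show decide (Run (sh k b) n) = decide (Run b (n + k))
  simp only [this]

/-- sigma algebra of the bits with index in `T` -/
@[reducible] def sig (T : Set ℤ) : MeasurableSpace (ℤ → Bool) :=
  ⨆ i ∈ T, MeasurableSpace.comap (fun b : ℤ → Bool => b i) inferInstance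

lemma sig_bit {T : Set ℤ} {i : ℤ} (hi : i ∈ T) (c : Bool) :
    MeasurableSet[sig T] {b : ℤ → Bool | b i = c} := by
  have h1 : MeasurableSpace.comap (fun b : ℤ → Bool => b i) inferInstance ≤ sig T := by
    unfold sig
    exact le_iSup₂_of_le (f := fun i (_ : i ∈ T) =>
      MeasurableSpace.comap (fun b : ℤ → Bool => b i) inferInstance) i hi le_rfl
  exact h1 _ ⟨{c}, measurableSet_singleton c, rfl⟩

lemma sig_run (n : ℤ) : MeasurableSet[sig (Iic n)] {b | Run b n} := by
  have : {b : ℤ → Bool | Run b n} = ⋃ j : ℕ, ⋃ (_ : Odd j), ((⋂ i : ℕ, ⋂ (_ : i < j),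
      {b : ℤ → Bool | b (n - i) = true}) ∩ {b | b (n - j) = false}) := by
    ext b
    simp only [Run, mem_ofPred_eq, mem_iUnion, mem_inter_iff, mem_iInter, exists_prop]
  rw [this]
  refine MeasurableSet.iUnion (fun j => MeasurableSet.iUnion (fun _ => MeasurableSet.inter ?_ ?_))
  · refine MeasurableSet.iInter (fun i => MeasurableSet.iInter (fun _ => ?_))
    exact sig_bit (by simp) true
  · exact sig_bit (by simp) false

lemma sig_mono {S T : Set ℤ} (h : S ⊆ T) : sig S ≤ sig T := by
  unfold sig
  exact biSup_mono h

lemma sig_le (T : Set ℤ) : sig T ≤ MeasurableSpace.pi := by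
  unfold sig
  refine iSup₂_le (fun i _ => ?_)
  exact Measurable.comap_le (measurable_pi_apply (X := fun _ : ℤ => Bool) i)

lemma sig_code (n : ℤ) (c : Bool) : MeasurableSet[sig (Iic n)] {b | code b n = c} := by
  cases c
  · have : {b : ℤ → Bool | code b n = false} = {b | Run b n}ᶜ := by
      ext b; simp [code_false]
    rw [this]
    exact (sig_run n).compl
  · have : {b : ℤ → Bool | code b n = true} = {b | Run b n} := by
      ext b; simp [code_true]
    rw [this]
    exact sig_run n

lemma meas_code : Measurable code := by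
  apply measurable_pi_lambda
  intro n
  apply measurable_to_countable'
  intro c
  exact sig_le _ _ (sig_code n c)

lemma meas_at0 (m : ℤ) (a : Bool) : MeasurableSet {x : ℤ → Bool | x m = a} :=
  (measurable_pi_apply m) (measurableSet_singleton _)

/-- the law of the golden mean chain -/
noncomputable def gm : Measure (ℤ → Bool) := PB.map code

instance : IsProbabilityMeasure gm := by
  unfold gm; exact Measure.isProbabilityMeasure_map meas_code.aemeasurable

lemma gm_stat (k : ℤ) : gm.map (sh k) = gm := by
  unfold gm
  rw [Measure.map_map (meas_sh k) meas_code]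
  have : (sh k) ∘ code = code ∘ (sh k) := by
    funext b
    exact (code_sh k b).symm
  rw [this, ← Measure.map_map meas_code (meas_sh k)]
  congr 1
  exact map_sh bit k

/-- almost surely there is a zero to the left -/
lemma ae_zero_left : ∀ᵐ b ∂PB, ∀ n : ℤ, ∃ i : ℕ, b (n - i) = false := by
  rw [ae_all_iff]
  intro n
  rw [ae_iff]
  have hle : ∀ k : ℕ, PB {b | ¬ ∃ i : ℕ, b (n - i) = false} ≤ (ENNReal.ofReal (1 - gr⁻¹)) ^ k := by
    intro k
    have hsub : {b : ℤ → Bool | ¬ ∃ i : ℕ, b (n - i) = false} ⊆
        Set.pi ((Finset.range k).image (fun i : ℕ => n - (i : ℤ)) : Set ℤ) (fun _ => {true}) := by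
      intro b hb
      simp only [mem_ofPred_eq, not_exists] at hb
      rw [Set.mem_pi]
      intro z hz
      simp only [Finset.coe_image, Finset.coe_range, mem_image] at hz
      obtain ⟨i, _, rfl⟩ := hz
      have := hb i
      simpa using this
    refine (measure_mono hsub).trans ?_
    unfold PB
    rw [Measure.infinitePi_pi _ (fun _ _ => measurableSet_singleton _),
      Finset.prod_const, Finset.card_image_of_injective, Finset.card_range, bit_true]
    intro i j hij
    have : (i : ℤ) = j := by
      have h : n - (i : ℤ) = n - j := hij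
      linarith
    exact_mod_cast this
  have hlt : ENNReal.ofReal (1 - gr⁻¹) < 1 := by
    rw [← ENNReal.ofReal_one]
    exact (ENNReal.ofReal_lt_ofReal_iff one_pos).2 (by linarith [inv_pos.2 gr_pos])
  have hlim := ENNReal.tendsto_pow_atTop_nhds_zero_of_lt_one hlt
  exact le_antisymm (ge_of_tendsto' hlim hle) bot_le

lemma ae_code_succ : ∀ᵐ b ∂PB, ∀ n : ℤ, code b (n + 1) = (b (n + 1) && !(code b n)) := by
  filter_upwards [ae_zero_left] with b hb n
  have h := run_succ (b := b) (n := n) (hb n)
  cases hc : code b n
  · rw [code_false] at hc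
    cases hb1 : b (n + 1)
    · have : ¬ Run b (n + 1) := by
        rw [h]; simp [hb1]
      rw [(code_false _ _).2 this]
      rfl
    · have : Run b (n + 1) := by
        rw [h]; exact ⟨hb1, hc⟩
      rw [(code_true _ _).2 this]
      rfl
  · rw [code_true] at hc
    have : ¬ Run b (n + 1) := by
      rw [h]; simp [hc]
    rw [(code_false _ _).2 this]
    simp

/-- future bits are independent of the past -/
lemma indep_bit (n : ℤ) {E : Set (ℤ → Bool)} (hE : MeasurableSet[sig (Iic n)] E) (T : Set Bool) :
    PB (E ∩ {b | b (n + 1) ∈ T}) = PB E * bit T := by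
  have hind : iIndep (fun i : ℤ => MeasurableSpace.comap (fun b : ℤ → Bool => b i) inferInstance)
      PB := by
    have := iIndepFun_infinitePi (P := fun _ : ℤ => bit) (X := fun (_ : ℤ) (a : Bool) => a)
      (fun _ => measurable_id)
    exact this
  have h1 := indep_iSup_of_disjoint (fun i => Measurable.comap_le
    (measurable_pi_apply (X := fun _ : ℤ => Bool) i)) hind (S := Iic n) (T := {n + 1}) (by
      rw [disjoint_singleton_right]
      simp)
  have hF : MeasurableSet[⨆ i ∈ ({n + 1} : Set ℤ),
      MeasurableSpace.comap (fun b : ℤ → Bool => b i) inferInstance] {b : ℤ → Bool | b (n + 1) ∈ T} := by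
    rw [iSup_singleton]
    exact ⟨T, MeasurableSet.of_discrete, rfl⟩
  have h2 := (Indep_iff _ _ _).1 h1 _ _ hE hF
  rw [h2]
  congr 1
  have h3 : PB.map (fun b => b (n + 1)) = bit := by
    unfold PB
    exact Measure.infinitePi_map_eval _ _
  rw [← h3, Measure.map_apply (measurable_pi_apply _) MeasurableSet.of_discrete]
  rfl

lemma bit_trans (a c : Bool) : bit {x | (x && !a) = c} = gp a c := by
  cases a <;> cases c
  · have : {x : Bool | (x && !false) = false} = {false} := by ext x; simp
    rw [this, bit_false]; rfl
  · have : {x : Bool | (x && !false) = true} = {true} := by ext x; simp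
    rw [this, bit_true]; rfl
  · have : {x : Bool | (x && !true) = false} = univ := by ext x; simp
    rw [this, measure_univ]; rfl
  · have : {x : Bool | (x && !true) = true} = ∅ := by ext x; simp
    rw [this, measure_empty]; rfl

lemma gm_markov (m : ℤ) (n : ℕ) (w : ℕ → Bool) : gm {x | ∀ i : ℕ, i ≤ n → x (m + i) = w i} =
    gm {x | x m = w 0} * ∏ i ∈ Finset.range n, gp (w i) (w (i + 1)) := by
  have hms : ∀ n : ℕ, MeasurableSet {x : ℤ → Bool | ∀ i : ℕ, i ≤ n → x (m + i) = w i} := by
    intro n
    have : {x : ℤ → Bool | ∀ i : ℕ, i ≤ n → x (m + i) = w i} =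
        ⋂ i : ℕ, ⋂ (_ : i ≤ n), {x : ℤ → Bool | x (m + i) = w i} := by
      ext x; simp
    rw [this]
    exact MeasurableSet.iInter (fun i => MeasurableSet.iInter (fun _ =>
      (measurable_pi_apply (m + (i : ℤ))) (measurableSet_singleton _)))
  induction n with
  | zero =>
    rw [Finset.prod_range_zero, mul_one]
    congr 1
    ext x
    simp
  | succ n ih =>
    rw [Finset.prod_range_succ, ← mul_assoc, ← ih]
    unfold gm
    rw [Measure.map_apply meas_code (hms (n + 1)), Measure.map_apply meas_code (hms n)]
    set E : Set (ℤ → Bool) := code ⁻¹' {x | ∀ i : ℕ, i ≤ n → x (m + i) = w i} with hE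
    have hEs : MeasurableSet[sig (Iic (m + n))] E := by
      have : E = ⋂ i : ℕ, ⋂ (_ : i ≤ n), {b : ℤ → Bool | code b (m + i) = w i} := by
        ext x; simp [hE]
      rw [this]
      refine MeasurableSet.iInter (fun i => MeasurableSet.iInter (fun hi => ?_))
      exact sig_mono (Iic_subset_Iic.2 (by
        have : (i : ℤ) ≤ n := by exact_mod_cast hi
        linarith)) _ (sig_code (m + i) (w i))
    have hind := indep_bit (m + n) hEs {x | (x && !(w n)) = w (n + 1)}
    rw [bit_trans] at hind
    rw [← hind]
    apply measure_congr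
    filter_upwards [ae_code_succ] with b hb
    apply propext
    have e1 : m + ((n + 1 : ℕ) : ℤ) = m + n + 1 := by push_cast; ring
    constructor
    · intro h
      refine ⟨fun i hi => h i (by omega), ?_⟩
      have h1 := h (n + 1) le_rfl
      have h2 := h n (by omega)
      rw [e1, hb, h2] at h1
      exact h1
    · rintro ⟨h1, h2⟩ i hi
      rcases Nat.lt_or_ge i (n + 1) with h | h
      · exact h1 i (by omega)
      · have : i = n + 1 := by omega
        subst this
        show code b _ = _
        have h3 : code b (m + n) = w n := h1 n le_rfl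
        rw [e1, hb, h3]
        exact h2

lemma gm_zero_false : gm {x | x 0 = false} ≠ 0 := by
  intro h0
  have h1 : PB {b | b 0 = false} ≤ gm {x | x 0 = false} := by
    unfold gm
    rw [Measure.map_apply meas_code (meas_at0 0 false)]
    refine measure_mono (fun b hb => ?_)
    show code b 0 = false
    rw [code_false]
    have := run_iff (b := b) (n := 0) (L := 0) (fun i hi => absurd hi (Nat.not_lt_zero i))
      (by simpa using hb)
    rw [this]
    simp
  have h3 : PB {b | b 0 = false} = bit {false} := by
    have h4 : PB.map (fun b => b 0) = bit := by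
      unfold PB
      exact Measure.infinitePi_map_eval _ _
    rw [← h4, Measure.map_apply (measurable_pi_apply _) MeasurableSet.of_discrete]
    rfl
  rw [h3, bit_false, h0] at h1
  have h5 := ENNReal.ofReal_pos.2 (inv_pos.2 gr_pos)
  exact absurd h1 (not_le.2 h5)

lemma gm_at (m : ℤ) (a : Bool) : gm {x | x m = a} = gm {x | x 0 = a} := by
  have h := gm_stat m
  have h1 : gm.map (sh m) {x | x 0 = a} = gm {x | x 0 = a} := by rw [h]
  rw [Measure.map_apply (meas_sh m) (meas_at0 0 a)] at h1
  rw [← h1]
  congr 1
  ext x
  simp [sh]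

lemma gm_zero_true : gm {x | x 0 = true} ≠ 0 := by
  have h1 := gm_markov (-1) 1 (fun i => decide (i = 1))
  have h2 : gm {x : ℤ → Bool | ∀ i : ℕ, i ≤ 1 → x (-1 + i) = (fun i => decide (i = 1)) i} ≤
      gm {x | x 0 = true} := by
    refine measure_mono (fun x hx => ?_)
    have := hx 1 le_rfl
    simpa using this
  rw [h1] at h2
  intro h0
  rw [h0, gm_at] at h2
  have h3 : gm {x : ℤ → Bool | x 0 = (fun i : ℕ => decide (i = 1)) 0} = gm {x | x 0 = false} := by
    congr 1
  rw [h3] at h2
  simp only [Finset.prod_range_one] at h2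
  have h4 : gp ((fun i : ℕ => decide (i = 1)) 0) ((fun i : ℕ => decide (i = 1)) (0 + 1)) =
      ENNReal.ofReal (1 - gr⁻¹) := by
    simp [gp]
  have h5 : ENNReal.ofReal (1 - gr⁻¹) ≠ 0 :=
    (ENNReal.ofReal_pos.2 (by linarith [gr_inv_lt])).ne'
  have h6 := le_antisymm h2 bot_le
  rcases mul_eq_zero.1 h6 with h | h
  · exact gm_zero_false h
  · exact h5 (by simpa [gp] using h)

end Pool.Agent.Q298.Gold
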