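import Mathlib

/-!
# Finitary factors of i.i.d. processes and Markov chains: definitions
-/

set_option autoImplicit false

open MeasureTheory ProbabilityTheory Set Filter
open scoped ENNReal NNReal Topology

namespace Pool.Agent.Q298.Gold

section entropy

/-- Shannon entropy of a probability measure: the mean of `-log ν {a}`. It is `∞` if `ν` is not
purely atomic (at a point that is not an atom `-log 0 = ∞`). -/
noncomputable def shannon {A : Type*} [MeasurableSpace A] (ν : Measure A) : ℝ≥0∞ :=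
  ∫⁻ a, (-(ENNReal.log (ν {a}))).toENNReal ∂ν

/-- The entropy rate `inf_n H(X_0, ..., X_n) / (n + 1)` of a stationary process with countably many
states, i.e. its Kolmogorov-Sinai entropy. -/
noncomputable def entropyRate {S : Type*} [MeasurableSpace S] (μ : Measure (ℤ → S)) : ℝ≥0∞ :=
  ⨅ n : ℕ, shannon (μ.map (fun (x : ℤ → S) (i : Fin (n + 1)) => x (i : ℕ))) / (n + 1)

end entropy

/-- The shift by `k`. -/
def sh {A : Type*} (k : ℤ) (y : ℤ → A) : ℤ → A := fun i => y (i + k)

section chain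

variable {S : Type*}

open Classical in
/-- The `n`-step transition probabilities. -/
noncomputable def stepN (p : S → S → ℝ≥0∞) : ℕ → S → S → ℝ≥0∞
  | 0 => fun a b => if a = b then 1 else 0
  | n + 1 => fun a b => ∑' c, p a c * stepN p n c b

/-- `μ` is the law of a two-sided stationary Markov chain with transition probabilities `p` that is
irreducible, aperiodic and positive recurrent. -/
structure IsErgodicMarkovChain [MeasurableSpace S] (p : S → S → ℝ≥0∞) (μ : Measure (ℤ → S)) :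
    Prop where
  prob : IsProbabilityMeasure μ
  stationary : ∀ k : ℤ, μ.map (sh k) = μ
  stochastic : ∀ a, ∑' b, p a b = 1
  markov : ∀ (m : ℤ) (n : ℕ) (w : ℕ → S), μ {x | ∀ i : ℕ, i ≤ n → x (m + i) = w i} =
    μ {x | x m = w 0} * ∏ i ∈ Finset.range n, p (w i) (w (i + 1))
  pos : ∀ a, μ {x | x 0 = a} ≠ 0
  mixing : ∀ a b, ∃ N, ∀ n ≥ N, stepN p n a b ≠ 0

/-- For some state `s` the return time `τ` satisfies `P(τ > n | X_0 = s) ≤ C exp(-c n)`. -/
def ExpReturnTimes [MeasurableSpace S] (μ : Measure (ℤ → S)) : Prop :=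
  ∃ s : S, μ {x | x 0 = s} ≠ 0 ∧ ∃ C c : ℝ, 0 < c ∧ ∀ n : ℕ,
    μ {x | x 0 = s ∧ ∀ k : ℕ, 1 ≤ k → k ≤ n → x k ≠ s} ≤
      ENNReal.ofReal (C * Real.exp (-c * n)) * μ {x | x 0 = s}

end chain

section factor

variable {A S : Type*}

/-- The coordinate `φ(y)_0` is determined, among the points of `Ω₀`, by `y_{-r}, ..., y_r`, i.e.
the coding window of `φ` at `y` is at most `r`. -/
def Determined (φ : (ℤ → A) → (ℤ → S)) (Ω₀ : Set (ℤ → A)) (r : ℕ) (y : ℤ → A) : Prop :=
  ∀ y' ∈ Ω₀, (∀ i : ℤ, |i| ≤ r → y' i = y i) → φ y' 0 = φ y 0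

/-- `φ` is a finitary factor map from the i.i.d. process with one-coordinate law `ν` onto the
process with law `μ` whose coding window has exponential tails. -/
structure IsExpFinitaryFactor [MeasurableSpace A] [MeasurableSpace S] (ν : Measure A)
    (μ : Measure (ℤ → S)) (φ : (ℤ → A) → (ℤ → S)) : Prop where
  meas : Measurable φ
  equivariant : ∀ᵐ y ∂(Measure.infinitePi fun _ : ℤ => ν), φ (sh 1 y) = sh 1 (φ y)
  law : (Measure.infinitePi fun _ : ℤ => ν).map φ = μ
  window : ∃ Ω₀ : Set (ℤ → A), (∀ᵐ y ∂(Measure.infinitePi fun _ : ℤ => ν), y ∈ Ω₀) ∧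
    ∃ C c : ℝ, 0 < c ∧ ∀ r : ℕ, (Measure.infinitePi fun _ : ℤ => ν)
      {y | y ∈ Ω₀ ∧ ¬ Determined φ Ω₀ r y} ≤ ENNReal.ofReal (C * Real.exp (-c * r))

end factor

end Pool.Agent.Q298.Gold
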