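import Pool.Agent.Q298.Gold.Chain

set_option autoImplicit false
set_option linter.unusedSectionVars false

open MeasureTheory ProbabilityTheory Set Filter
open scoped ENNReal NNReal Topology

namespace Pool.Agent.Q298.Gold

/-- potential -/
noncomputable def U : Bool → ℝ≥0∞
  | false => 1
  | true => ENNReal.ofReal gr⁻¹

lemma U_le (a : Bool) : U a ≤ 1 := by
  cases a
  · exact le_rfl
  · show ENNReal.ofReal gr⁻¹ ≤ 1
    rw [← ENNReal.ofReal_one]
    exact ENNReal.ofReal_le_ofReal gr_inv_lt.le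

lemma le_U (a : Bool) : ENNReal.ofReal gr⁻¹ ≤ U a := by
  cases a
  · exact U_le true
  · exact le_rfl

lemma inv_sq : 1 - gr⁻¹ = gr⁻¹ * gr⁻¹ := by
  rw [gr_inv]
  have := gr_sq
  nlinarith

lemma gp_U (a b : Bool) : gp a b = 0 ∨ gp a b * U a = ENNReal.ofReal gr⁻¹ * U b := by
  cases a <;> cases b
  · right; rfl
  · right
    show ENNReal.ofReal (1 - gr⁻¹) * 1 = ENNReal.ofReal gr⁻¹ * ENNReal.ofReal gr⁻¹
    rw [mul_one, inv_sq, ENNReal.ofReal_mul (inv_nonneg.2 gr_pos.le)]
  · right
    show 1 * ENNReal.ofReal gr⁻¹ = ENNReal.ofReal gr⁻¹ * 1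
    rw [one_mul, mul_one]
  · left; rfl

lemma prod_U (n : ℕ) (w : ℕ → Bool) : ∏ i ∈ Finset.range n, gp (w i) (w (i + 1)) = 0 ∨
    (∏ i ∈ Finset.range n, gp (w i) (w (i + 1))) * U (w 0) =
      (ENNReal.ofReal gr⁻¹) ^ n * U (w n) := by
  induction n with
  | zero => right; simp
  | succ n ih =>
    rw [Finset.prod_range_succ]
    rcases ih with ih | ih
    · left; rw [ih, zero_mul]
    · rcases gp_U (w n) (w (n + 1)) with h | h
      · left; rw [h, mul_zero]
      · right
        calc (∏ i ∈ Finset.range n, gp (w i) (w (i + 1))) * gp (w n) (w (n + 1)) * U (w 0)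
            = ((∏ i ∈ Finset.range n, gp (w i) (w (i + 1))) * U (w 0)) * gp (w n) (w (n + 1)) := by
              ring
          _ = (ENNReal.ofReal gr⁻¹) ^ n * (gp (w n) (w (n + 1)) * U (w n)) := by rw [ih]; ring
          _ = _ := by rw [h, pow_succ]; ring

lemma rR : ENNReal.ofReal gr⁻¹ * ENNReal.ofReal gr = 1 := by
  rw [← ENNReal.ofReal_mul (inv_nonneg.2 gr_pos.le), inv_mul_cancel₀ gr_pos.ne', ENNReal.ofReal_one]

lemma gm_cyl (l : ℕ) (z : ℤ → Bool) : gm {x | ∀ i ∈ Finset.Icc (-(l : ℤ)) l, x i = z i} *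
    (ENNReal.ofReal gr) ^ (2 * l + 1) ≤ (ENNReal.ofReal gr) ^ 2 := by
  set w : ℕ → Bool := fun i => z (-(l : ℤ) + i) with hw
  have h1 : {x : ℤ → Bool | ∀ i ∈ Finset.Icc (-(l : ℤ)) l, x i = z i} =
      {x | ∀ i : ℕ, i ≤ 2 * l → x (-(l : ℤ) + i) = w i} := by
    ext x
    simp only [mem_ofPred_eq, Finset.mem_Icc, hw]
    constructor
    · intro h i hi
      refine h _ ⟨by linarith [Int.natCast_nonneg i], ?_⟩
      have : (i : ℤ) ≤ 2 * l := by exact_mod_cast hi
      linarith
    · rintro h i ⟨hi1, hi2⟩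
      have h2 := h (i + l).toNat (by omega)
      have h3 : (((i + l).toNat : ℕ) : ℤ) = i + l := Int.toNat_of_nonneg (by linarith)
      rw [h3] at h2
      have h4 : -(l : ℤ) + (i + l) = i := by ring
      rwa [h4] at h2
  rw [h1, gm_markov]
  set prd := ∏ i ∈ Finset.range (2 * l), gp (w i) (w (i + 1)) with hprd
  set r := ENNReal.ofReal gr⁻¹ with hr
  set R := ENNReal.ofReal gr with hR
  have hprod : prd * r ≤ r ^ (2 * l) := by
    rcases prod_U (2 * l) w with h | h
    · rw [← hprd] at h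
      rw [h, zero_mul]
      exact bot_le
    · rw [← hprd, ← hr] at h
      calc prd * r ≤ prd * U (w 0) := by gcongr; exact le_U _
        _ = r ^ (2 * l) * U (w (2 * l)) := h
        _ ≤ r ^ (2 * l) * 1 := by gcongr; exact U_le _
        _ = _ := mul_one _
  have h5 : prd * R ^ (2 * l + 1) ≤ R ^ 2 := by
    calc prd * R ^ (2 * l + 1) = prd * (r * R) * R ^ (2 * l + 1) := by rw [rR, mul_one]
      _ = (prd * r) * R ^ (2 * l + 2) := by ring
      _ ≤ r ^ (2 * l) * R ^ (2 * l + 2) := by gcongr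
      _ = (r * R) ^ (2 * l) * R ^ 2 := by ring
      _ = R ^ 2 := by rw [rR, one_pow, one_mul]
  calc gm {x | x (-(l : ℤ)) = w 0} * prd * R ^ (2 * l + 1) ≤ 1 * prd * R ^ (2 * l + 1) := by
        gcongr
        exact prob_le_one
    _ ≤ R ^ 2 := by rw [one_mul]; exact h5

/-- a lower bound for the positive cylinder probabilities -/
lemma gm_block : ∃ D : ℝ, 0 ≤ D ∧ ∀ n : ℕ,
    shannon (gm.map (fun (x : ℤ → Bool) (i : Fin (n + 1)) => x (i : ℕ))) ≤
      ENNReal.ofReal ((n + 1) * Real.log gr + D) := by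
  classical
  set c0 := min (gm {x | x 0 = false}) (gm {x | x 0 = true}) with hc0
  have hc0pos : c0 ≠ 0 := by
    intro h
    rcases min_choice (gm {x | x 0 = false}) (gm {x | x 0 = true}) with h1 | h1
    · exact gm_zero_false (by rw [← h1, ← hc0, h])
    · exact gm_zero_true (by rw [← h1, ← hc0, h])
  have hc01 : c0 ≤ 1 := (min_le_left _ _).trans prob_le_one
  have hc0t : c0 ≠ ∞ := ne_top_of_le_ne_top ENNReal.one_ne_top hc01
  have hc0r : 0 < c0.toReal := ENNReal.toReal_pos hc0pos hc0t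
  refine ⟨-Real.log c0.toReal, ?_, fun n => ?_⟩
  · rw [neg_nonneg]
    refine Real.log_nonpos ENNReal.toReal_nonneg ?_
    have := ENNReal.toReal_mono ENNReal.one_ne_top hc01
    rwa [ENNReal.toReal_one] at this
  set blk : (ℤ → Bool) → (Fin (n + 1) → Bool) := fun x i => x (i : ℕ) with hblk
  have hmb : Measurable blk := by
    apply measurable_pi_lambda
    intro i
    exact measurable_pi_apply _
  set κ := gm.map blk with hκ
  have hκp : IsProbabilityMeasure κ := Measure.isProbabilityMeasure_map hmb.aemeasurable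
  have hlow : ∀ v, κ {v} ≠ 0 → c0 * (ENNReal.ofReal gr⁻¹) ^ (n + 1) ≤ κ {v} := by
    intro v hv
    set w : ℕ → Bool := fun i => if h : i < n + 1 then v ⟨i, h⟩ else false with hw
    have h1 : κ {v} = gm {x | ∀ i : ℕ, i ≤ n → x ((0 : ℤ) + i) = w i} := by
      rw [hκ, Measure.map_apply hmb (measurableSet_singleton v)]
      congr 1
      ext x
      simp only [mem_preimage, mem_singleton_iff, mem_ofPred_eq, hw]
      constructor
      · intro h i hi
        rw [dif_pos (Nat.lt_succ_of_le hi), ← h, zero_add]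
      · intro h
        funext i
        have := h i (Nat.lt_succ_iff.1 i.2)
        rw [dif_pos i.2, zero_add] at this
        exact this
    rw [h1, gm_markov] at hv ⊢
    set prd := ∏ i ∈ Finset.range n, gp (w i) (w (i + 1)) with hprd
    have hprd0 : prd ≠ 0 := right_ne_zero_of_mul hv
    rcases prod_U n w with h | h
    · exact absurd h hprd0
    · have h2 : (ENNReal.ofReal gr⁻¹) ^ (n + 1) ≤ prd := by
        calc (ENNReal.ofReal gr⁻¹) ^ (n + 1) = (ENNReal.ofReal gr⁻¹) ^ n * ENNReal.ofReal gr⁻¹ :=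
              pow_succ _ _
          _ ≤ (ENNReal.ofReal gr⁻¹) ^ n * U (w n) := by gcongr; exact le_U _
          _ = prd * U (w 0) := h.symm
          _ ≤ prd * 1 := by gcongr; exact U_le _
          _ = prd := mul_one _
      have h3 : c0 ≤ gm {x | x 0 = w 0} := by
        cases w 0
        · exact min_le_left _ _
        · exact min_le_right _ _
      exact mul_le_mul' h3 h2
  have hae : ∀ᵐ v ∂κ, (-(ENNReal.log (κ {v}))).toENNReal ≤
      ENNReal.ofReal ((n + 1) * Real.log gr + -Real.log c0.toReal) := by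
    rw [ae_iff_of_countable]
    intro v hv
    rw [neg_log_eq hv (measure_ne_top _ _)]
    refine ENNReal.ofReal_le_ofReal ?_
    have h1 := ENNReal.toReal_mono (measure_ne_top κ {v}) (hlow v hv)
    rw [ENNReal.toReal_mul, ENNReal.toReal_pow, ENNReal.toReal_ofReal (inv_nonneg.2 gr_pos.le)]
      at h1
    have hpos : 0 < c0.toReal * gr⁻¹ ^ (n + 1) := mul_pos hc0r (pow_pos (inv_pos.2 gr_pos) _)
    have h2 := Real.log_le_log hpos h1
    rw [Real.log_mul hc0r.ne' (pow_pos (inv_pos.2 gr_pos) _).ne', Real.log_pow, Real.log_inv] at h2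
    push_cast at h2
    linarith
  unfold shannon
  calc ∫⁻ v, (-(ENNReal.log (κ {v}))).toENNReal ∂κ
      ≤ ∫⁻ _, ENNReal.ofReal ((n + 1) * Real.log gr + -Real.log c0.toReal) ∂κ :=
        lintegral_mono_ae hae
    _ = _ := by rw [lintegral_const, measure_univ, mul_one]

lemma gm_rate : entropyRate gm ≤ ENNReal.ofReal (Real.log gr) := by
  obtain ⟨D, hD, h⟩ := gm_block
  have hlog : 0 < Real.log gr := Real.log_pos gr_one
  have hle : ∀ n : ℕ, entropyRate gm ≤ ENNReal.ofReal (Real.log gr + D / (n + 1)) := by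
    intro n
    unfold entropyRate
    refine (iInf_le _ n).trans ?_
    have hn : (0 : ℝ) < n + 1 := by positivity
    have e : Real.log gr + D / (n + 1) = ((n + 1) * Real.log gr + D) / (n + 1) := by
      field_simp
    rw [e, ENNReal.ofReal_div_of_pos hn]
    have e2 : ENNReal.ofReal ((n : ℝ) + 1) = (n : ℝ≥0∞) + 1 := by
      rw [ENNReal.ofReal_add (Nat.cast_nonneg n) zero_le_one, ENNReal.ofReal_natCast,
        ENNReal.ofReal_one]
    rw [e2]
    gcongr
    exact h n
  have hlim : Tendsto (fun n : ℕ => ENNReal.ofReal (Real.log gr + D / (n + 1))) atTop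
      (𝓝 (ENNReal.ofReal (Real.log gr))) := by
    apply ENNReal.tendsto_ofReal
    have h1 : Tendsto (fun n : ℕ => D / ((n : ℝ) + 1)) atTop (𝓝 0) := by
      have := tendsto_one_div_add_atTop_nhds_zero_nat.const_mul D
      rw [mul_zero] at this
      refine this.congr (fun n => ?_)
      ring
    simpa using tendsto_const_nhds.add h1
  exact ge_of_tendsto' hlim hle

lemma stepN_succ_ne {p : Bool → Bool → ℝ≥0∞} {n : ℕ} {a b c : Bool} (h1 : p a c ≠ 0)
    (h2 : stepN p n c b ≠ 0) : stepN p (n + 1) a b ≠ 0 := by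
  show ∑' c, p a c * stepN p n c b ≠ 0
  intro h0
  rw [ENNReal.tsum_eq_zero] at h0
  rcases mul_eq_zero.1 (h0 c) with h | h
  · exact h1 h
  · exact h2 h

lemma gp_ne (a b : Bool) (h : ¬ (a = true ∧ b = true)) : gp a b ≠ 0 := by
  cases a <;> cases b
  · exact (ENNReal.ofReal_pos.2 (inv_pos.2 gr_pos)).ne'
  · exact (ENNReal.ofReal_pos.2 (by linarith [gr_inv_lt])).ne'
  · exact one_ne_zero
  · simp at h

lemma gm_ergodic : IsErgodicMarkovChain gp gm where
  prob := inferInstance
  stationary := gm_stat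
  stochastic := by
    intro a
    rw [tsum_bool]
    cases a
    · show ENNReal.ofReal gr⁻¹ + ENNReal.ofReal (1 - gr⁻¹) = 1
      rw [← ENNReal.ofReal_add (inv_nonneg.2 gr_pos.le) (by linarith [gr_inv_lt])]
      norm_num
    · show (1 : ℝ≥0∞) + 0 = 1
      simp
  markov := gm_markov
  pos := by
    intro a
    cases a
    · exact gm_zero_false
    · exact gm_zero_true
  mixing := by
    intro a b
    refine ⟨2, fun n hn => ?_⟩
    have key : ∀ n : ℕ, stepN gp (n + 1) false b ≠ 0 := by
      intro n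
      induction n with
      | zero =>
        refine stepN_succ_ne (c := b) (gp_ne false b (by simp)) ?_
        simp [stepN]
      | succ n ih => exact stepN_succ_ne (gp_ne false false (by simp)) ih
    obtain ⟨k, rfl⟩ : ∃ k, n = k + 1 + 1 := ⟨n - 2, by omega⟩
    exact stepN_succ_ne (gp_ne a false (by simp)) (key k)

lemma gm_return : ExpReturnTimes gm := by
  refine ⟨false, gm_zero_false, Real.exp 1, 1, one_pos, fun n => ?_⟩
  rcases Nat.lt_or_ge n 2 with h | h
  · have h1 : (1 : ℝ) ≤ Real.exp 1 * Real.exp (-1 * n) := by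
      rw [← Real.exp_add]
      apply Real.one_le_exp
      have : (n : ℝ) ≤ 1 := by exact_mod_cast (by omega : n ≤ 1)
      linarith
    calc gm {x | x 0 = false ∧ ∀ k : ℕ, 1 ≤ k → k ≤ n → x k ≠ false} ≤ gm {x | x 0 = false} :=
          measure_mono (fun x hx => hx.1)
      _ = ENNReal.ofReal 1 * gm {x | x 0 = false} := by rw [ENNReal.ofReal_one, one_mul]
      _ ≤ _ := by
          gcongr
  · have h1 : gm {x | x 0 = false ∧ ∀ k : ℕ, 1 ≤ k → k ≤ n → x k ≠ false} = 0 := by
      have h2 := gm_markov 1 1 (fun _ => true)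
      have h3 : gm {x : ℤ → Bool | ∀ i : ℕ, i ≤ 1 → x ((1 : ℤ) + i) = (fun _ => true) i} = 0 := by
        rw [h2]
        simp [gp]
      refine measure_mono_null (fun x hx => ?_) h3
      intro i hi
      have h4 := hx.2 (1 + i) (by omega) (by omega)
      have h5 : x ((1 : ℤ) + i) ≠ false := by
        have e : ((1 + i : ℕ) : ℤ) = (1 : ℤ) + i := by push_cast; ring
        rwa [e] at h4
      simpa using h5
    rw [h1]
    exact bot_le

universe u

/-- the entropy-equal i.i.d. processes have no finitary factor map onto the golden mean chain with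
exponential tails -/
theorem no_factor (A : Type u) [MeasurableSpace A] [StandardBorelSpace A] (ν : Measure A)
    [IsProbabilityMeasure ν] (hH : shannon ν = entropyRate gm) :
    ¬ ∃ φ : (ℤ → A) → (ℤ → Bool), IsExpFinitaryFactor ν gm φ := by
  rintro ⟨φ, hφ⟩
  have hR1 : (1 : ℝ≥0∞) ≤ ENNReal.ofReal gr := by
    rw [← ENNReal.ofReal_one]
    exact ENNReal.ofReal_le_ofReal gr_one.le
  obtain ⟨θ, hθ, hF⟩ := exists_theta ν hφ gr gr_one ((ENNReal.ofReal gr) ^ 2)
    (one_le_pow_of_one_le' hR1 2) (ENNReal.pow_ne_top ENNReal.ofReal_ne_top) gm_cyl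
  have h1 := uniform_of_le ν gr gr_one θ hθ hF (hH.le.trans gm_rate)
  obtain ⟨k, hk⟩ := nat_of_uniform ν gr gr_one h1
  exact Real.goldenRatio_irrational ⟨(k : ℚ), by rw [show Real.goldenRatio = gr from rfl, hk]; simp⟩

end Pool.Agent.Q298.Gold
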