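import Pool.Agent.Q298.Gold.Bound

set_option autoImplicit false
set_option linter.unusedSectionVars false

open MeasureTheory ProbabilityTheory Set Filter
open scoped ENNReal NNReal Topology

namespace Pool.Agent.Q298.Gold

variable {A : Type*} [MeasurableSpace A] [StandardBorelSpace A] (ν : Measure A)
  [IsProbabilityMeasure ν]

/-- the integrand of the Shannon entropy at an atom -/
lemma neg_log_eq {x : ℝ≥0∞} (h0 : x ≠ 0) (h1 : x ≠ ∞) :
    (-(ENNReal.log x)).toENNReal = ENNReal.ofReal (-Real.log x.toReal) := by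
  rw [ENNReal.log_pos_real h0 h1, ← EReal.coe_neg, EReal.toENNReal_of_ne_top (EReal.coe_ne_top _),
    EReal.toReal_coe]

lemma neg_log_zero : (-(ENNReal.log 0)).toENNReal = ∞ := by
  rw [ENNReal.log_zero, EReal.neg_bot, EReal.toENNReal_top]

/-- equality case of Jensen's inequality -/
theorem uniform_of_le (L : ℝ) (hL : 1 < L) (θ : ℝ) (hθ : 0 < θ)
    (hF : (∫⁻ a, (ν {a}) ^ θ ∂ν) * (ENNReal.ofReal L) ^ θ ≤ 1)
    (hH : shannon ν ≤ ENNReal.ofReal (Real.log L)) :
    ∀ᵐ a ∂ν, (ν {a}).toReal = L⁻¹ := by
  have hL0 : 0 < L := by linarith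
  have hma := meas_atom ν
  have hmlog : Measurable (fun a => (-(ENNReal.log (ν {a}))).toENNReal) := by
    have h1 : Measurable (fun x : ℝ≥0∞ => (-(ENNReal.log x)).toENNReal) := by
      have h2 : Measurable (fun x : ℝ≥0∞ => if x = 0 then (∞ : ℝ≥0∞) else if x = ∞ then 0 else
          ENNReal.ofReal (-Real.log x.toReal)) := by
        refine Measurable.ite (measurableSet_singleton _) measurable_const ?_
        refine Measurable.ite (measurableSet_singleton _) measurable_const ?_
        fun_prop
      have h3 : (fun x : ℝ≥0∞ => (-(ENNReal.log x)).toENNReal) = fun x : ℝ≥0∞ =>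
          if x = 0 then (∞ : ℝ≥0∞) else if x = ∞ then 0 else
          ENNReal.ofReal (-Real.log x.toReal) := by
        funext x
        by_cases h0 : x = 0
        · rw [if_pos h0, h0, neg_log_zero]
        · rw [if_neg h0]
          by_cases ht : x = ∞
          · rw [if_pos ht, ht, ENNReal.log_top]
            simp
          · rw [if_neg ht, neg_log_eq h0 ht]
      rw [h3]
      exact h2
    exact h1.comp hma
  have hHt : shannon ν ≠ ∞ := ne_top_of_le_ne_top ENNReal.ofReal_ne_top hH
  -- atoms
  have hpos : ∀ᵐ a ∂ν, ν {a} ≠ 0 := by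
    have := ae_lt_top hmlog hHt
    filter_upwards [this] with a ha h0
    rw [h0, neg_log_zero] at ha
    exact lt_irrefl _ ha
  set g : A → ℝ := fun a => (ν {a}).toReal with hg
  have hgm : Measurable g := hma.ennreal_toReal
  have hg1 : ∀ a, g a ≤ 1 := by
    intro a
    have := ENNReal.toReal_mono ENNReal.one_ne_top (prob_le_one (μ := ν) (s := {a}))
    rwa [ENNReal.toReal_one] at this
  have hg0 : ∀ᵐ a ∂ν, 0 < g a := by
    filter_upwards [hpos] with a ha
    exact ENNReal.toReal_pos ha (measure_ne_top _ _)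
  have hlogneg : ∀ a, 0 ≤ -Real.log (g a) := by
    intro a
    rw [neg_nonneg]
    exact Real.log_nonpos ENNReal.toReal_nonneg (hg1 a)
  have hHeq : shannon ν = ∫⁻ a, ENNReal.ofReal (-Real.log (g a)) ∂ν := by
    unfold shannon
    refine lintegral_congr_ae ?_
    filter_upwards [hpos] with a ha
    exact neg_log_eq ha (measure_ne_top _ _)
  have hint : Integrable (fun a => -Real.log (g a)) ν := by
    refine ⟨(hgm.log.neg).aestronglyMeasurable, ?_⟩
    rw [hasFiniteIntegral_iff_ofReal (ae_of_all _ hlogneg), ← hHeq]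
    exact lt_top_iff_ne_top.2 hHt
  have hmean : ∫ a, -Real.log (g a) ∂ν ≤ Real.log L := by
    rw [integral_eq_lintegral_of_nonneg_ae (ae_of_all _ hlogneg)
      (hgm.log.neg).aestronglyMeasurable, ← hHeq]
    exact ENNReal.toReal_le_of_le_ofReal (Real.log_pos hL).le hH
  -- the exponential
  set u : A → ℝ := fun a => θ * (Real.log (g a) + Real.log L) with hu
  have huint : Integrable u ν := by
    have h1 : Integrable (fun a => Real.log (g a)) ν := by
      have := hint.neg
      simpa using this
    exact (h1.add (integrable_const _)).const_mul θ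
  have hexp : ∀ᵐ a ∂ν, Real.exp (u a) = g a ^ θ * L ^ θ := by
    filter_upwards [hg0] with a ha
    rw [Real.rpow_def_of_pos ha, Real.rpow_def_of_pos hL0, ← Real.exp_add]
    congr 1
    simp only [hu]
    ring
  have hexpm : Measurable (fun a => Real.exp (u a)) := by
    have : Measurable u := (hgm.log.add_const _).const_mul θ
    exact this.exp
  have hexpint : Integrable (fun a => Real.exp (u a)) ν := by
    refine Integrable.of_bound (C := L ^ θ) hexpm.aestronglyMeasurable ?_
    filter_upwards [hexp, hg0] with a ha h0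
    rw [Real.norm_of_nonneg (Real.exp_pos _).le, ha]
    have h1 : g a ^ θ ≤ 1 := Real.rpow_le_one h0.le (hg1 a) hθ.le
    have h2 : 0 ≤ L ^ θ := Real.rpow_nonneg hL0.le _
    nlinarith
  have hexp_le : ∫ a, Real.exp (u a) ∂ν ≤ 1 := by
    rw [integral_eq_lintegral_of_nonneg_ae (ae_of_all _ (fun a => (Real.exp_pos _).le))
      hexpm.aestronglyMeasurable]
    refine ENNReal.toReal_le_of_le_ofReal zero_le_one ?_
    rw [ENNReal.ofReal_one]
    refine le_trans (le_of_eq ?_) hF
    rw [← lintegral_mul_const _ (hma.pow_const θ)]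
    refine lintegral_congr_ae ?_
    filter_upwards [hexp, hg0] with a ha h0
    rw [ha, ENNReal.ofReal_mul (Real.rpow_nonneg h0.le _), ← ENNReal.ofReal_rpow_of_pos h0,
      ← ENNReal.ofReal_rpow_of_pos hL0]
    congr 2
    exact ENNReal.ofReal_toReal (measure_ne_top _ _)
  have humean : 0 ≤ ∫ a, u a ∂ν := by
    have e1 : ∫ a, u a ∂ν = θ * (Real.log L - ∫ a, -Real.log (g a) ∂ν) := by
      have h2 : ∀ a, u a = θ * (Real.log L - (-Real.log (g a))) := by
        intro a
        simp only [hu]
        ring
      simp_rw [h2]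
      rw [integral_const_mul, integral_sub (integrable_const _) hint, integral_const]
      simp
    rw [e1]
    exact mul_nonneg hθ.le (by linarith)
  have hzero : ∫ a, (Real.exp (u a) - 1 - u a) ∂ν = 0 := by
    have hnn : 0 ≤ ∫ a, (Real.exp (u a) - 1 - u a) ∂ν := by
      refine integral_nonneg (fun a => ?_)
      have := Real.add_one_le_exp (u a)
      show (0 : ℝ) ≤ _
      linarith
    have heq : ∫ a, (Real.exp (u a) - 1 - u a) ∂ν = ∫ a, Real.exp (u a) ∂ν - 1 - ∫ a, u a ∂ν := by
      have i1 : Integrable (fun a => Real.exp (u a) - 1) ν := hexpint.sub (integrable_const _)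
      rw [integral_sub i1 huint, integral_sub hexpint (integrable_const _), integral_const]
      simp
    linarith
  have hae : ∀ᵐ a ∂ν, Real.exp (u a) - 1 - u a = 0 := by
    have h1 := (integral_eq_zero_iff_of_nonneg (μ := ν) (f := fun a => Real.exp (u a) - 1 - u a)
      (fun a => by
        have := Real.add_one_le_exp (u a)
        show (0 : ℝ) ≤ _
        linarith)
      ((hexpint.sub (integrable_const _)).sub huint)).1 hzero
    exact h1
  filter_upwards [hae, hg0] with a ha h0
  have hu0 : u a = 0 := by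
    by_contra hne
    have := Real.add_one_lt_exp hne
    linarith
  have h1 : Real.log (g a) + Real.log L = 0 := by
    rcases mul_eq_zero.1 hu0 with h | h
    · exact absurd h hθ.ne'
    · exact h
  have h2 : Real.log (g a) = Real.log L⁻¹ := by
    rw [Real.log_inv]
    linarith
  exact Real.log_injOn_pos (mem_Ioi.2 h0) (mem_Ioi.2 (inv_pos.2 hL0)) h2

/-- all atoms of the same mass -/
theorem nat_of_uniform (L : ℝ) (hL : 1 < L) (h : ∀ᵐ a ∂ν, (ν {a}).toReal = L⁻¹) :
    ∃ k : ℕ, L = k := by
  classical
  have hL0 : 0 < L := by linarith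
  set B : Set A := {a | (ν {a}).toReal = L⁻¹} with hB
  have hBm : MeasurableSet B :=
    (meas_atom ν).ennreal_toReal (measurableSet_singleton _)
  have hB1 : ν B = 1 := by
    rw [← prob_compl_eq_zero_iff hBm]
    exact h
  have hval : ∀ a ∈ B, ν {a} = ENNReal.ofReal L⁻¹ := by
    intro a ha
    rw [← (show (ν {a}).toReal = L⁻¹ from ha), ENNReal.ofReal_toReal (measure_ne_top _ _)]
  have hsum : ∀ T : Finset A, (T : Set A) ⊆ B → ν (T : Set A) = T.card * ENNReal.ofReal L⁻¹ := by
    intro T hT
    rw [← sum_measure_singleton, Finset.sum_congr rfl (fun a ha => hval a (hT (Finset.mem_coe.2 ha))),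
      Finset.sum_const, nsmul_eq_mul]
  have hfin : B.Finite := by
    by_contra hinf
    obtain ⟨T, hTB, hTc⟩ := Set.Infinite.exists_subset_card_eq hinf (⌈L⌉₊ + 1)
    have h1 := hsum T hTB
    have h2 : ν (T : Set A) ≤ 1 := prob_le_one
    rw [h1, hTc] at h2
    have h3 := ENNReal.toReal_mono ENNReal.one_ne_top h2
    rw [ENNReal.toReal_mul, ENNReal.toReal_natCast, ENNReal.toReal_ofReal (by positivity),
      ENNReal.toReal_one] at h3
    have h4 : L < (⌈L⌉₊ + 1 : ℕ) := by
      push_cast
      have := Nat.le_ceil L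
      linarith
    have h5 : (1 : ℝ) < (⌈L⌉₊ + 1 : ℕ) * L⁻¹ := by
      rw [← div_eq_mul_inv, lt_div_iff₀ hL0, one_mul]
      exact h4
    linarith
  refine ⟨hfin.toFinset.card, ?_⟩
  have h1 := hsum hfin.toFinset (by simp)
  rw [Set.Finite.coe_toFinset, hB1] at h1
  have h2 := congrArg ENNReal.toReal h1
  rw [ENNReal.toReal_one, ENNReal.toReal_mul, ENNReal.toReal_natCast,
    ENNReal.toReal_ofReal (by positivity)] at h2
  field_simp at h2
  linarith

end Pool.Agent.Q298.Gold
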