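import Pool.Agent.Q298.Gold.Defs

set_option autoImplicit false
set_option linter.unusedSectionVars false

open MeasureTheory ProbabilityTheory Set Filter
open scoped ENNReal NNReal Topology

namespace Pool.Agent.Q298.Gold

section shift

variable {A : Type*} [MeasurableSpace A]

lemma meas_sh (k : ℤ) : Measurable (sh k : (ℤ → A) → (ℤ → A)) := by
  unfold sh
  fun_prop

lemma sh_sh (k l : ℤ) (y : ℤ → A) : sh k (sh l y) = sh (k + l) y := by
  funext i
  simp only [sh]
  congr 1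
  ring

lemma sh_zero (y : ℤ → A) : sh 0 y = y := by
  funext i
  simp [sh]

variable (ν : Measure A) [IsProbabilityMeasure ν]

lemma map_sh (k : ℤ) :
    (Measure.infinitePi fun _ : ℤ => ν).map (sh k) = Measure.infinitePi fun _ : ℤ => ν :=
  Measure.map_infinitePi_infinitePi_of_inj (P := fun _ : ℤ => ν) (f := fun i : ℤ => i + k)
    (add_left_injective k)

lemma ae_sh (k : ℤ) {p : (ℤ → A) → Prop} (h : ∀ᵐ y ∂(Measure.infinitePi fun _ : ℤ => ν), p y) :
    ∀ᵐ y ∂(Measure.infinitePi fun _ : ℤ => ν), p (sh k y) := by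
  rw [← map_sh ν k] at h
  exact ae_of_ae_map (meas_sh k).aemeasurable h

lemma sh_preimage_le (k : ℤ) (s : Set (ℤ → A)) :
    (Measure.infinitePi fun _ : ℤ => ν) (sh k ⁻¹' s) ≤ (Measure.infinitePi fun _ : ℤ => ν) s := by
  set P := Measure.infinitePi fun _ : ℤ => ν with hP
  calc P (sh k ⁻¹' s) ≤ P (sh k ⁻¹' (toMeasurable P s)) :=
        measure_mono (preimage_mono (subset_toMeasurable P s))
    _ = P.map (sh k) (toMeasurable P s) := by
        rw [Measure.map_apply (meas_sh k) (measurableSet_toMeasurable P s)]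
    _ = P s := by rw [hP, map_sh, ← hP, measure_toMeasurable]

lemma ae_equivariant {S : Type*} {φ : (ℤ → A) → (ℤ → S)}
    (h : ∀ᵐ y ∂(Measure.infinitePi fun _ : ℤ => ν), φ (sh 1 y) = sh 1 (φ y)) (k : ℤ) :
    ∀ᵐ y ∂(Measure.infinitePi fun _ : ℤ => ν), φ (sh k y) = sh k (φ y) := by
  have shS : ∀ (k l : ℤ) (x : ℤ → S), sh k (sh l x) = sh (k + l) x := by
    intro k l x
    funext i
    simp only [sh]
    congr 1
    ring
  have shS0 : ∀ x : ℤ → S, sh 0 x = x := by
    intro x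
    funext i
    simp [sh]
  induction k using Int.induction_on with
  | zero =>
    filter_upwards with y
    rw [sh_zero, shS0]
  | succ i ih =>
    filter_upwards [ih, ae_sh ν i h] with y hy h1
    rw [add_comm, ← sh_sh, h1, hy, shS]
  | pred i ih =>
    have h2 := ae_sh ν (-(i : ℤ) - 1) h
    filter_upwards [ih, h2] with y hy h1
    have e1 : sh 1 (sh (-(i : ℤ) - 1) y) = sh (-(i : ℤ)) y := by
      rw [sh_sh]
      congr 1
      ring
    rw [e1, hy] at h1
    have h3 := congrArg (sh (-1)) h1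
    rw [shS, shS] at h3
    have e2 : sh (-1 + 1) (φ (sh (-(i : ℤ) - 1) y)) = φ (sh (-(i : ℤ) - 1) y) := by
      rw [show (-1 + 1 : ℤ) = 0 by norm_num, shS0]
    rw [e2] at h3
    rw [← h3]
    congr 1
    ring

end shift

lemma Determined.mono {A S : Type*} {φ : (ℤ → A) → (ℤ → S)} {Ω₀ : Set (ℤ → A)} {r s : ℕ}
    (hrs : r ≤ s) {y : ℤ → A} (h : Determined φ Ω₀ r y) : Determined φ Ω₀ s y := by
  intro y' hy' hagree
  exact h y' hy' (fun i hi => hagree i (hi.trans (by exact_mod_cast hrs)))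

section key

variable {A S : Type*} [MeasurableSpace A] [StandardBorelSpace A] [MeasurableSpace S]
  [MeasurableSingletonClass S] (ν : Measure A) [IsProbabilityMeasure ν]

/-- the probability of the cylinder of `y` on `[-n, n]` -/
noncomputable def Wn (n : ℕ) (y : ℤ → A) : ℝ≥0∞ := ∏ i ∈ Finset.Icc (-(n : ℤ)) n, ν {y i}

lemma meas_atom : Measurable (fun a : A => ν {a}) := by
  have h := measurable_measure_prodMk_left (ν := ν) (measurableSet_diagonal (α := A))
  have e : (fun a : A => ν {a}) = fun a => ν (Prod.mk a ⁻¹' diagonal A) := by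
    funext a
    congr 1
    ext b
    simp [eq_comm]
  rw [e]
  exact h

lemma cyl_Wn (n : ℕ) (y : ℤ → A) : (Measure.infinitePi fun _ : ℤ => ν)
    {y' | ∀ i ∈ Finset.Icc (-(n : ℤ)) n, y' i = y i} = Wn ν n y := by
  have : {y' : ℤ → A | ∀ i ∈ Finset.Icc (-(n : ℤ)) n, y' i = y i} =
      Set.pi (Finset.Icc (-(n : ℤ)) n : Set ℤ) (fun i => {y i}) := by
    ext y'
    simp [Set.mem_pi]
  rw [this, Measure.infinitePi_pi _ (fun i _ => measurableSet_singleton _)]
  rfl

lemma lint_Wn (n : ℕ) (θ : ℝ) (hθ : 0 ≤ θ) :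
    ∫⁻ y, (Wn ν n y) ^ θ ∂(Measure.infinitePi fun _ : ℤ => ν) =
      (∫⁻ a, (ν {a}) ^ θ ∂ν) ^ (2 * n + 1) := by
  have hind := iIndepFun_infinitePi (P := fun _ : ℤ => ν)
    (X := fun (_ : ℤ) (a : A) => (ν {a}) ^ θ) (fun _ => (meas_atom ν).pow_const θ)
  have h1 := lintegral_prod_eq_prod_lintegral_of_indepFun (Finset.Icc (-(n : ℤ)) n) _ hind
    (fun i => ((meas_atom ν).pow_const θ).comp (measurable_pi_apply i))
  have h2 : ∀ y : ℤ → A, (Wn ν n y) ^ θ = ∏ i ∈ Finset.Icc (-(n : ℤ)) n, (ν {y i}) ^ θ := by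
    intro y
    unfold Wn
    rw [ENNReal.prod_rpow_of_nonneg hθ]
  simp_rw [h2]
  rw [h1]
  have h3 : ∀ i : ℤ, ∫⁻ y : ℤ → A, (ν {y i}) ^ θ ∂(Measure.infinitePi fun _ : ℤ => ν) =
      ∫⁻ a, (ν {a}) ^ θ ∂ν := by
    intro i
    have h4 := lintegral_map (μ := Measure.infinitePi fun _ : ℤ => ν) (f := fun a : A => (ν {a}) ^ θ)
      (g := fun y : ℤ → A => y i) ((meas_atom ν).pow_const θ) (measurable_pi_apply i)
    rw [Measure.infinitePi_map_eval] at h4
    exact h4.symm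
  rw [Finset.prod_congr rfl (fun i _ => h3 i), Finset.prod_const]
  congr 1
  rw [Int.card_Icc]
  omega

/-- comparison of cylinders -/
lemma cyl_compare {φ : (ℤ → A) → (ℤ → S)} {Ω₀ : Set (ℤ → A)} (hm : Measurable φ)
    (hE : ∀ᵐ y ∂(Measure.infinitePi fun _ : ℤ => ν), ∀ k : ℤ, sh k y ∈ Ω₀ ∧
      φ (sh k y) = sh k (φ y)) (n l : ℕ) (hl : l ≤ n) (y : ℤ → A)
    (hy : ∀ k : ℤ, sh k y ∈ Ω₀ ∧ φ (sh k y) = sh k (φ y))
    (hdet : ∀ i : ℤ, |i| ≤ l → Determined φ Ω₀ (n - i.natAbs) (sh i y)) :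
    Wn ν n y ≤ ((Measure.infinitePi fun _ : ℤ => ν).map φ)
      {x | ∀ i ∈ Finset.Icc (-(l : ℤ)) l, x i = φ y i} := by
  have hms : MeasurableSet {x : ℤ → S | ∀ i ∈ Finset.Icc (-(l : ℤ)) l, x i = φ y i} := by
    have : {x : ℤ → S | ∀ i ∈ Finset.Icc (-(l : ℤ)) l, x i = φ y i} =
        ⋂ i ∈ Finset.Icc (-(l : ℤ)) l, {x : ℤ → S | x i = φ y i} := by
      ext x; simp
    rw [this]
    refine Finset.measurableSet_biInter _ (fun i _ => ?_)
    exact (measurable_pi_apply i) (measurableSet_singleton _)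
  rw [← cyl_Wn, Measure.map_apply hm hms]
  refine measure_mono_ae ?_
  filter_upwards [hE] with y' hy' hcyl
  intro i hi
  rw [Finset.mem_Icc] at hi
  have hil : |i| ≤ l := abs_le.2 hi
  have h1 := hdet i hil (sh i y') (hy' i).1 (by
    intro j hj
    show y' (j + i) = y (j + i)
    refine hcyl (j + i) ?_
    rw [Finset.mem_Icc, ← abs_le]
    have h2 : |j + i| ≤ |j| + |i| := abs_add_le j i
    have h3 : ((n - i.natAbs : ℕ) : ℤ) = n - |i| := by
      rw [Nat.cast_sub, Int.natCast_natAbs]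
      have : ((i.natAbs : ℕ) : ℤ) ≤ n := by
        rw [Int.natCast_natAbs]
        exact hil.trans (by exact_mod_cast hl)
      exact_mod_cast this
    rw [h3] at hj
    linarith)
  rw [(hy' i).2, (hy i).2] at h1
  simpa [sh] using h1

end key

end Pool.Agent.Q298.Gold
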